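import Pool.Agent.P.MP_5aa89f_gt.Extra

set_option autoImplicit false

namespace Pool.Agent.Results.MP_5aa89f_gt.LocallyCountable

/-- There is a separable Tychonoff space `X` whose Stone-Cech remainder has at most one point, such
that `X × βX` is subnormal, with a cover by countable compact open sets that has no
sigma-locally finite refinement (closed or not). -/
theorem result :
    ∃ (X : Type) (_ : TopologicalSpace X) (_ : T35Space X) (_ : TopologicalSpace.SeparableSpace X),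
      (Set.range (stoneCechUnit : X → StoneCech X))ᶜ.Subsingleton ∧
      (∀ A B : Set (X × StoneCech X), IsClosed A → IsClosed B → Disjoint A B →
        ∃ G H : Set (X × StoneCech X), IsGδ G ∧ IsGδ H ∧ A ⊆ G ∧ B ⊆ H ∧ Disjoint G H) ∧
      ∃ U : X → Set X, (∀ x, x ∈ U x ∧ IsOpen (U x) ∧ IsCompact (U x) ∧ (U x).Countable) ∧
        ∀ (κ : Type) (F : ℕ → κ → Set X), (∀ n, LocallyFinite (F n)) →
          (∀ n k, ∃ x, F n k ⊆ U x) → (⋃ n, ⋃ k, F n k) ≠ Set.univ :=
  ⟨Pool.Agent.P.MP_5aa89f_gt.X, inferInstance, inferInstance,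
    Pool.Agent.P.MP_5aa89f_gt.separable_X, Pool.Agent.P.MP_5aa89f_gt.remainder_subsingleton,
    Pool.Agent.P.MP_5aa89f_gt.subnormal_prod, fun x => Pool.Agent.P.MP_5aa89f_gt.N x 0,
    fun x => ⟨Pool.Agent.P.MP_5aa89f_gt.mem_N x 0, Pool.Agent.P.MP_5aa89f_gt.isOpen_N x 0,
      Pool.Agent.P.MP_5aa89f_gt.isCompact_N x 0, Pool.Agent.P.MP_5aa89f_gt.countable_N x 0⟩,
    Pool.Agent.P.MP_5aa89f_gt.no_locallyFinite⟩

end Pool.Agent.Results.MP_5aa89f_gt.LocallyCountable
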