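import Pool.Agent.P.MP_5aa89f_gt.Theta

set_option autoImplicit false

namespace Pool.Agent.Results.MP_5aa89f_gt.NotSubmetaLindelof

open Set Topology

/-- A separable, first countable, locally compact Tychonoff space `X` such that `X × βX` is
subnormal, with an open cover that has no sigma-locally finite refinement by arbitrary sets and no
sequence of open refinements that has countable order at each point at some stage. -/
theorem result :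
    ∃ (X : Type) (_ : TopologicalSpace X), T35Space X ∧ LocallyCompactSpace X ∧
      FirstCountableTopology X ∧ TopologicalSpace.SeparableSpace X ∧
      (∀ A B : Set (X × StoneCech X), IsClosed A → IsClosed B → Disjoint A B →
        ∃ U V : Set (X × StoneCech X), IsGδ U ∧ IsGδ V ∧ A ⊆ U ∧ B ⊆ V ∧ Disjoint U V) ∧
      ∃ 𝒰 : Set (Set X), (∀ U ∈ 𝒰, IsOpen U) ∧ ⋃₀ 𝒰 = univ ∧
        (¬ ∃ ℱ : ℕ → Set (Set X), (⋃ n, ⋃₀ ℱ n) = univ ∧ ∀ n, (∀ F ∈ ℱ n, ∃ U ∈ 𝒰, F ⊆ U) ∧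
          ∀ x : X, ∃ W ∈ 𝓝 x, {F ∈ ℱ n | (W ∩ F).Nonempty}.Finite) ∧
        ¬ ∃ 𝒢 : ℕ → Set (Set X),
          (∀ n, ⋃₀ 𝒢 n = univ ∧ ∀ G ∈ 𝒢 n, IsOpen G ∧ ∃ U ∈ 𝒰, G ⊆ U) ∧
          ∀ x : X, ∃ n, {G ∈ 𝒢 n | x ∈ G}.Countable := by
  open Pool.Agent.P.MP_5aa89f_gt in
  refine ⟨X, inferInstance, inferInstance, inferInstance, firstCountable, separable,
    subnormal_prod, {U | IsOpen U ∧ U.Countable}, fun U hU => hU.1,
    eq_univ_of_forall fun x => ⟨N x 0, ⟨isOpen_N x 0, countable_N x 0⟩, mem_N x 0⟩, ?_, ?_⟩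
  · rintro ⟨ℱ, h1, h2⟩
    exact Pool.Agent.P.MP_5aa89f_gt.not_sigma ℱ (fun n => ⟨fun F hF => by
      obtain ⟨U, hU, h⟩ := (h2 n).1 F hF
      exact hU.2.mono h, (h2 n).2⟩) h1
  · rintro ⟨𝒢, h1, h2⟩
    exact Pool.Agent.P.MP_5aa89f_gt.not_theta 𝒢 (fun n => ⟨fun G hG => by
      obtain ⟨ho, U, hU, h⟩ := (h1 n).2 G hG
      exact ⟨ho, hU.2.mono h⟩, (h1 n).1⟩) h2

end Pool.Agent.Results.MP_5aa89f_gt.NotSubmetaLindelof
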